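import Pool.Agent.H11.OT.Fin2
import Pool.Agent.H90.Ord.UNFin

set_option autoImplicit false

namespace Pool.Agent.Results.MP_d8220c_lc.ThreeNotFour

open Ordinal in
/-- Let `α = ω^(ω^(ω·2))`. Every triangle-free graph on `α` has an independent set of order type
`α`; some graph on `α` without a complete subgraph on four vertices has no independent set of order
type `α`. -/
theorem result :
    ∃ α : Ordinal.{0}, α = ω ^ ω ^ (ω * 2) ∧
      (∀ G : SimpleGraph α.ToType, G.CliqueFree 3 →
        ∃ S : Set α.ToType, G.IsIndepSet S ∧ Nonempty (α.ToType ≃o S)) ∧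
      ∃ G : SimpleGraph α.ToType, G.CliqueFree 4 ∧
        ¬ ∃ S : Set α.ToType, G.IsIndepSet S ∧ Nonempty (α.ToType ≃o S) :=
  Pool.Agent.H90.Ord.final_of_unav fun f hf => Pool.Agent.H90.Ord.unavoidable f hf

end Pool.Agent.Results.MP_d8220c_lc.ThreeNotFour
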